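import Pool.Agent.H73.PHS.Final
import Pool.Agent.H31.LPC.FIG
import Pool.Agent.H25.LPC.CNN
import Pool.Agent.H72.LPC.HEX
import Pool.Agent.H67.LPC.MXP
import Pool.Agent.H80.LPC.LIX
import Pool.Agent.H56.LPC.SM2
import Pool.Agent.H21.LPC.ID2
import Pool.Agent.H55.LPC.RKE
import Pool.Agent.H24.LPC.RKC
import Pool.Agent.H46.LPC.ZER
import Pool.Agent.H22.LPC.CST
import Pool.Agent.H45.LPC.NWT
import Pool.Agent.H23.LPC.LOC
import Pool.Agent.H1.LPC.COR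
import Pool.Agent.H45.LPC.ITP
import Pool.Agent.H89.LPC.GEO
import Pool.Agent.H1.LPC.ASM
import Pool.Agent.H33.LPC.ATR
import Pool.Agent.H2.LPC.FUL
import Pool.Agent.H22.LPC.TWO

/-!
# Board LPC: assembly
-/

set_option autoImplicit false

open Set Filter Topology

namespace Pool.LPC

theorem f_FIG : FIGStmt := FIG_thm
theorem f_CNN : CNNStmt := CNN_thm
theorem f_HEX : HEXStmt := HEX_thm
theorem f_MXP : MXPStmt := MXP_thm
theorem f_LIX : LIXStmt := LIX_thm f_MXP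
theorem f_SM2 : SM2Stmt := SM2_thm
theorem f_ID2 : ID2Stmt := ID2_thm
theorem f_RKE : RKEStmt := RKE_thm f_SM2 f_ID2 f_CNN
theorem f_RKC : RKCStmt := RKC_thm
theorem f_ZER : ZERStmt := ZER_thm
theorem f_CST : CSTStmt := CST_thm f_SM2
theorem f_NWT : NWTStmt := NWT_thm
theorem f_LOC : LOCStmt := LOC_thm f_ZER f_CST f_NWT
theorem f_COR : CORStmt := COR_thm f_LOC
theorem f_ITP : ITPStmt := ITP_thm
theorem f_GEO : GEOStmt := GEO_thm f_ID2 f_CNN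
theorem f_ASM : ASMStmt := ASM_thm Pool.PHS.f_LIM f_FIG f_CNN f_HEX f_LIX f_RKE f_RKC f_COR f_ITP f_GEO
theorem f_ATR : ATRStmt := ATR_thm Pool.PHS.f_IDN Pool.PHS.f_IT1
theorem f_FUL : FULStmt := FUL_thm Pool.PHS.f_LIM Pool.PHS.f_IDN Pool.PHS.f_IT1 Pool.PHS.f_SRJ
theorem f_TWO : TWOStmt := TWO_thm f_ASM f_ATR f_FUL

end Pool.LPC
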