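import Pool.Agent.H73.PHS.Stmts

/-!
# Board LPC: limits of iterates of proper self-maps and pseudoconvexity (MP_e1af46)

THEOREM.  Let `D` be a bounded domain of `ℂⁿ` and `f` a proper holomorphic self-map of `D`.
(1) If a subsequence of the iterates of `f` converges on `D` to a map `g : D → D` of rank at most one,
then `D` is pseudoconvex.  (2) If `fᵏ → p ∈ D` on a nonempty open subset of `D`, then `D` is
pseudoconvex.  (3) If `n = 2`, `D` is not pseudoconvex and a subsequence of the iterates converges to a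
map `g : D → D`, then `f` is biholomorphic.  No smoothness is assumed.

PROOF.  Pseudoconvexity is used in the form of the Kontinuitätssatz: let `φ` be holomorphic near the
closed bidisc with `φ (H) ⊆ D`, `H` the Hartogs figure `{w = 0} ∪ {|z| = 1}`.  The maps `f^[k j] ∘ φ`
extend from a neighbourhood of `H` to maps `F j` on a neighbourhood of the closed bidisc, and
`F j → G` uniformly, `G = g ∘ φ` near `H`.  KEY (COR): since the rank of `G` is at most one, every
value of `G` is taken in the Hartogs figure: if `y` is not, the set of `w` such that `y = G (z, w)` for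
some `z` is closed, it is open since the level sets of `G` have no isolated points (LOC), and it does
not contain `0`.  So `G` takes its values in a compact subset of `D`, and `F j` maps the bidisc to
`D` for large `j`.  Since `f^[k j]` is proper, `φ` maps the bidisc to `D` (GEO): on the boundary of the
component of `φ⁻¹ (D)` the maps `f^[k j] ∘ φ = F j` would tend to the boundary of `D`.
(3): if the rank of `g` is two somewhere, limits of `f^[k (j+1) - k j]` are the identity.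
-/

set_option autoImplicit false

open Set Filter Topology MeasureTheory Metric

namespace Pool.LPC

open Pool.PHS

/-- a bidisc -/
def BD (δ : ℝ) : Set (ℂ × ℂ) := {p | ‖p.1‖ < 1 + δ ∧ ‖p.2‖ < 1 + δ}

/-- a Hartogs figure -/
def HF (δ : ℝ) : Set (ℂ × ℂ) :=
  {p | ‖p.1‖ < 1 + δ ∧ ‖p.2‖ < 1 + δ ∧ (‖p.2‖ < δ ∨ 1 - δ < ‖p.1‖)}

/-- pseudoconvexity, in the form of the Kontinuitätssatz -/
def Psc {n : ℕ} (D : Set (Cn n)) : Prop :=
  ∀ φ : ℂ × ℂ → Cn n, (∃ δ > 0, DifferentiableOn ℂ φ (BD δ)) →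
    (∀ z : ℂ, ‖z‖ ≤ 1 → φ (z, 0) ∈ D) → (∀ z w : ℂ, ‖z‖ = 1 → ‖w‖ ≤ 1 → φ (z, w) ∈ D) →
    ∀ z w : ℂ, ‖z‖ ≤ 1 → ‖w‖ ≤ 1 → φ (z, w) ∈ D

/-- the partial derivatives of a map of two complex variables -/
noncomputable def pz {F : Type} [NormedAddCommGroup F] [NormedSpace ℂ F] (G : ℂ × ℂ → F)
    (p : ℂ × ℂ) : F := fderiv ℂ G p (1, 0)

/-- the partial derivatives of a map of two complex variables -/
noncomputable def pw {F : Type} [NormedAddCommGroup F] [NormedSpace ℂ F] (G : ℂ × ℂ → F)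
    (p : ℂ × ℂ) : F := fderiv ℂ G p (0, 1)

/-- the rank is at most one -/
def RankOne {n : ℕ} (G : ℂ × ℂ → Cn n) (U : Set (ℂ × ℂ)) : Prop :=
  ∀ p ∈ U, ∀ i l, pz G p i * pw G p l - pw G p i * pz G p l = 0

/-! ## Part 1: two variables -/

/-- SM2: holomorphic maps on open subsets of `ℂ × ℂ` are smooth and the partial derivatives are
holomorphic.  Proof: as SMO of board PHS (`osg_fderiv_apply` of Pool/Agent/H79/TC/Osg.lean is for
general spaces), see the file of that row. -/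
def SM2Stmt : Prop :=
  ∀ (F : Type) [NormedAddCommGroup F] [NormedSpace ℂ F] [CompleteSpace F] (G : ℂ × ℂ → F)
    (U : Set (ℂ × ℂ)), IsOpen U → DifferentiableOn ℂ G U →
    ContDiffOn ℂ 2 G U ∧ DifferentiableOn ℂ (pz G) U ∧ DifferentiableOn ℂ (pw G) U

/-- ID2: identity theorem on `ℂ × ℂ`.  Proof: as IDN of board PHS (copy). -/
def ID2Stmt : Prop :=
  ∀ (F : Type) [NormedAddCommGroup F] [NormedSpace ℂ F] [CompleteSpace F] (f g : ℂ × ℂ → F)
    (U W : Set (ℂ × ℂ)), IsOpen U → IsPreconnected U → DifferentiableOn ℂ f U →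
    DifferentiableOn ℂ g U → IsOpen W → W ⊆ U → W.Nonempty → EqOn f g W → EqOn f g U

/-- FIG: from the closed figure to an open one.  Proof: the compact set
`{‖z‖ ≤ 1, w = 0} ∪ {‖z‖ = 1, ‖w‖ ≤ 1}` lies in the open set `φ ⁻¹' D ∩ BD δ₀`; for small `δ` the compact
set `{‖p.1‖ ≤ 1 + δ, ‖p.2‖ ≤ 1 + δ, ‖p.2‖ ≤ δ ∨ 1 - δ ≤ ‖p.1‖}` does too (otherwise a sequence of points
in these sets with `δ = 1/m` has a cluster point in the closed figure); `Q` is its image. -/
def FIGStmt : Prop :=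
  ∀ (n : ℕ) (D : Set (Cn n)) (φ : ℂ × ℂ → Cn n), IsOpen D → (∃ δ > 0, DifferentiableOn ℂ φ (BD δ)) →
    (∀ z : ℂ, ‖z‖ ≤ 1 → φ (z, 0) ∈ D) → (∀ z w : ℂ, ‖z‖ = 1 → ‖w‖ ≤ 1 → φ (z, w) ∈ D) →
    ∃ (δ : ℝ) (Q : Set (Cn n)), 0 < δ ∧ δ < 1 ∧ DifferentiableOn ℂ φ (BD δ) ∧ IsCompact Q ∧ Q ⊆ D ∧
      MapsTo φ (HF δ) Q

/-- CON: the figures are open and connected.  Proof: `BD δ` is convex.  `HF δ` is the union of the
convex set `{‖z‖ < 1 + δ, ‖w‖ < δ}` and of the sets `{z} × {‖w‖ < 1 + δ}`, `1 - δ < ‖z‖ < 1 + δ`, which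
meet it. -/
def CNNStmt : Prop :=
  ∀ δ : ℝ, 0 < δ → δ < 1 → IsOpen (BD δ) ∧ IsPreconnected (BD δ) ∧ IsOpen (HF δ) ∧
    IsPreconnected (HF δ) ∧ (HF δ).Nonempty ∧ HF δ ⊆ BD δ

/-- HEX: extension from the Hartogs figure.  Proof: `G (z, w) = (2 π i)⁻¹ ∮ F (ζ, w) / (ζ - z)` over
`|ζ| = 1 + 3 δ / 4`, for `|z| < 1 + δ / 2`, `|w| < 1 + δ / 2`; holomorphic (differentiate under the
integral; or: continuous and holomorphic in each variable).  For `‖w‖ < δ` it is `F (z, w)` (Cauchy);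
for fixed `z` with `1 - δ < ‖z‖` both sides are holomorphic in `w`, `‖w‖ < 1 + δ / 2`, and agree for
`‖w‖ < δ`. -/
def HEXStmt : Prop :=
  ∀ (n : ℕ) (δ : ℝ) (F : ℂ × ℂ → Cn n), 0 < δ → δ < 1 → DifferentiableOn ℂ F (HF δ) →
    ∃ G : ℂ × ℂ → Cn n, DifferentiableOn ℂ G (BD (δ / 2)) ∧ EqOn G F (HF (δ / 2))

/-- MXP: maximum principle.  Proof: for fixed `w` use the disc `‖z‖ ≤ r`, `max (‖z‖, 1) < r < 1 + δ`;
its boundary lies in the figure (`Complex.norm_le_of_forall_mem_frontier_norm_le`). -/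
def MXPStmt : Prop :=
  ∀ (n : ℕ) (δ M : ℝ) (G : ℂ × ℂ → Cn n), 0 < δ → δ < 1 → DifferentiableOn ℂ G (BD δ) →
    (∀ p ∈ HF δ, ‖G p‖ ≤ M) → ∀ p ∈ BD δ, ‖G p‖ ≤ M

/-- LIX: limits.  Proof: by MXP the sequence is uniformly Cauchy on `BD δ`; the limit is holomorphic
(`osg_limit` of Pool/Agent/H79/TC/Osg.lean is for general spaces).  Needs MXP. -/
def LIXStmt : Prop :=
  ∀ (n : ℕ) (δ : ℝ) (F : ℕ → ℂ × ℂ → Cn n) (g : ℂ × ℂ → Cn n), 0 < δ → δ < 1 →
    (∀ j, DifferentiableOn ℂ (F j) (BD δ)) → TendstoUniformlyOn F g atTop (HF δ) →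
    ∃ G : ℂ × ℂ → Cn n, DifferentiableOn ℂ G (BD δ) ∧ TendstoUniformlyOn F G atTop (BD δ) ∧
      EqOn G g (HF δ)

/-- RKE: the rank condition extends.  Proof: the minors are holomorphic on `BD δ` (SM2) and vanish on
the nonempty open subset `HF δ`: ID2.  Needs SM2 ID2 CNN. -/
def RKEStmt : Prop :=
  ∀ (n : ℕ) (δ : ℝ) (G : ℂ × ℂ → Cn n), 0 < δ → δ < 1 → DifferentiableOn ℂ G (BD δ) →
    RankOne G (HF δ) → RankOne G (BD δ)

/-- RKC: chain rule.  Proof: `pz G p` and `pw G p` are in the range of `fderiv ℂ g (φ p)`, of dimension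
at most one. -/
def RKCStmt : Prop :=
  ∀ (n : ℕ) (D : Set (Cn n)) (U : Set (ℂ × ℂ)) (g : Cn n → Cn n) (φ G : ℂ × ℂ → Cn n), IsOpen D →
    IsOpen U → DifferentiableOn ℂ g D → DifferentiableOn ℂ φ U → MapsTo φ U D →
    (∀ p ∈ U, G p = g (φ p)) →
    (∀ z ∈ D, Module.finrank ℂ (LinearMap.range (fderiv ℂ g z).toLinearMap) ≤ 1) → RankOne G U

/-! ## Part 2: zeros -/

/-- ZER: the zeros in a disc and the argument principle.  Proof: `u` has finitely many zeros in the
closed disc (it is not identically zero); dividing by `z - a` for the zeros with multiplicity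
(`dslope`, or `AnalyticAt.exists_eventuallyEq_pow_smul_nonzero_iff`) gives
`u z = (∏ (z - a)) * e z` on the ball `R`, `e` holomorphic and without zeros in the closed disc.  On the
circle `u' / u = ∑ 1 / (z - a) + e' / e`; Cauchy's formula and Cauchy's theorem. -/
def ZERStmt : Prop :=
  ∀ (c : ℂ) (r R : ℝ) (u : ℂ → ℂ), 0 < r → r < R → DifferentiableOn ℂ u (ball c R) →
    (∀ z, ‖z - c‖ = r → u z ≠ 0) →
    ∃ s : Multiset ℂ, (∀ a ∈ s, a ∈ ball c r ∧ u a = 0) ∧ (∀ a ∈ ball c r, u a = 0 → a ∈ s) ∧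
      ∀ v : ℂ → ℂ, DifferentiableOn ℂ v (ball c R) →
        (∮ z in C(c, r), v z * deriv u z / u z) = 2 * Real.pi * Complex.I * (s.map v).sum

/-- CST: constancy of the power sums.  Proof: let `I w = ∮ V^k U_z / U`.  Differentiate under the
integral; since `U_z V_w = U_w V_z` and `∂_w (U_z / U) = ∂_z (U_w / U)`,
`∂_w (V^k U_z / U) = ∂_z (V^k U_w / U)`, whose integral over the circle is zero.  Needs SM2. -/
def CSTStmt : Prop :=
  ∀ (c w₀ : ℂ) (r R R' : ℝ) (U V : ℂ × ℂ → ℂ) (k : ℕ), 0 < r → r < R → 0 < R' →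
    DifferentiableOn ℂ U (ball c R ×ˢ ball w₀ R') → DifferentiableOn ℂ V (ball c R ×ˢ ball w₀ R') →
    (∀ z w, ‖z - c‖ = r → w ∈ ball w₀ R' → U (z, w) ≠ 0) →
    (∀ p ∈ ball c R ×ˢ ball w₀ R', pz U p * pw V p - pw U p * pz V p = 0) →
    ∀ w ∈ ball w₀ R', (∮ z in C(c, r), V (z, w) ^ k * pz U (z, w) / U (z, w)) =
      ∮ z in C(c, r), V (z, w₀) ^ k * pz U (z, w₀) / U (z, w₀)

/-- NWT: Proof: a polynomial `P` with `P 0 = 0` and `P a = 1` for all `a ≠ 0` in `s` (Lagrange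
interpolation); `∑ P a = 0` is the number of the nonzero elements. -/
def NWTStmt : Prop :=
  ∀ s : Multiset ℂ, (∀ k : ℕ, 1 ≤ k → (s.map fun a => a ^ k).sum = 0) → ∀ a ∈ s, a = 0

/-- LOC: the level sets have no isolated points in the direction of `w`.  Proof: let `G (z₀, w₀) = y` and
let `i` be a coordinate such that `U = G_i - y_i` does not vanish identically on `{w = w₀}` near `z₀`.
Take `r` with `U (z, w₀) ≠ 0` for `0 < ‖z - z₀‖ ≤ r`, and `R'` with `U ≠ 0` for `‖z - z₀‖ = r`,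
`‖w - w₀‖ < R'`.  By ZER (for `U (·, w)`) and CST (`k = 0`, `V = 1`) the number of zeros does not depend
on `w`, so it is positive; by ZER, CST for `V = G_l - y_l`, `k ≥ 1`, and NWT (the zeros for `w₀` are all
`z₀`, where `V = 0`) all `G_l - y_l` vanish at the zeros of `U (·, w)`.
Needs ZER CST NWT. -/
def LOCStmt : Prop :=
  ∀ (n : ℕ) (O : Set (ℂ × ℂ)) (G : ℂ × ℂ → Cn n) (z₀ w₀ : ℂ), IsOpen O → (z₀, w₀) ∈ O →
    DifferentiableOn ℂ G O → RankOne G O → (¬ ∀ᶠ z in 𝓝 z₀, G (z, w₀) = G (z₀, w₀)) →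
    ∀ᶠ w in 𝓝 w₀, ∃ z, (z, w) ∈ O ∧ G (z, w) = G (z₀, w₀)

/-- COR: the values are taken in the Hartogs figure.  Proof: let `y = G (z₁, w₁)` not be a value of `G`
on `HF δ`, and `W` the set of `w` with `‖w‖ < 1 + δ`, `G (z, w) = y` for some `‖z‖ < 1 + δ`; then
`‖z‖ ≤ 1 - δ`, so `W` is closed in the disc.  It is open by LOC: if `G (z, w₀) = y` for all `z` near
`z₀`, then for all `‖z‖ < 1 + δ` (identity theorem in one variable), which is impossible for
`‖z‖ > 1 - δ`.  So `W` is the disc, but it does not contain `0`.  Needs LOC. -/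
def CORStmt : Prop :=
  ∀ (n : ℕ) (δ : ℝ) (G : ℂ × ℂ → Cn n), 0 < δ → δ < 1 → DifferentiableOn ℂ G (BD δ) →
    RankOne G (BD δ) → G '' BD δ ⊆ G '' HF δ

/-! ## Part 3: proper maps -/

/-- ITP: iterates are proper. -/
def ITPStmt : Prop :=
  ∀ (n : ℕ) (D : Set (Cn n)) (f : Cn n → Cn n), ProperSelf D f → ∀ k : ℕ, ProperSelf D (f^[k])

/-- GEO: Proof: let `A = {p ∈ BD δ | φ p ∈ D}` (open) and `W` its connected component which contains
`HF δ` (`connectedComponentIn`), open.  `F = h ∘ φ` on `W` (ID2).  `W` is closed in `BD δ`: let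
`p ∈ BD δ` be in the closure; if `φ p ∈ D` then `p ∈ W`.  Otherwise let `p_i → p`, `p_i ∈ W`; the set `L`
of the `F p_i` and `F p` is a compact subset of `D`, and the `φ p_i` lie in the compact set
`D ∩ h ⁻¹' L`, so `φ p` does.  So `W = BD δ`.  Needs ID2 CNN. -/
def GEOStmt : Prop :=
  ∀ (n : ℕ) (D : Set (Cn n)) (h : Cn n → Cn n) (δ : ℝ) (φ F : ℂ × ℂ → Cn n), IsOpen D →
    ProperSelf D h → 0 < δ → δ < 1 → DifferentiableOn ℂ φ (BD δ) → DifferentiableOn ℂ F (BD δ) →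
    MapsTo φ (HF δ) D → (∀ p ∈ HF δ, F p = h (φ p)) → MapsTo F (BD δ) D → MapsTo φ (BD δ) D

/-- ASM: part (1) of the theorem.  Proof: FIG.  By LIM of board PHS the convergence is locally uniform
on `D`, so uniform on `Q`, and `g` is holomorphic.  HEX for `f^[k j] ∘ φ` on `HF δ` gives `F j` on
`BD (δ/2)`; LIX (with `δ/2`, limit `g ∘ φ`) gives `G`; RKC, RKE, COR: `G` maps `BD (δ/2)` to the compact
subset `g '' Q` of `D`, so `F j` maps it to `D` for large `j`; GEO with `h = f^[k j]` (ITP).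
Needs FIG CNN HEX LIX RKE RKC COR ITP GEO (and LIM, IDN of PHS). -/
def ASMStmt : Prop :=
  ∀ (n : ℕ) (D : Set (Cn n)) (f g : Cn n → Cn n) (k : ℕ → ℕ), IsOpen D → IsConnected D →
    Bornology.IsBounded D → ProperSelf D f → StrictMono k →
    (∀ z ∈ D, Tendsto (fun j => f^[k j] z) atTop (𝓝 (g z))) → MapsTo g D D →
    (∀ z ∈ D, Module.finrank ℂ (LinearMap.range (fderiv ℂ g z).toLinearMap) ≤ 1) → Psc D

/-- ATR: Proof: by IT1 of board PHS every ultrafilter finer than `atTop` gives a limit of the iterates,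
which is `p` on `U`, so on `D` (IDN for the coordinates).  So `f^[k] z → p` for all `z ∈ D`
(`tendsto_iff_ultrafilter`).  (IT1 has hypotheses on maps to the closure: `subset_closure`.) -/
def ATRStmt : Prop :=
  ∀ (n : ℕ) (D U : Set (Cn n)) (f : Cn n → Cn n) (p : Cn n), IsOpen D → IsConnected D →
    Bornology.IsBounded D → ProperSelf D f → IsOpen U → U ⊆ D → U.Nonempty →
    (∀ z ∈ U, Tendsto (fun j => f^[j] z) atTop (𝓝 p)) →
    ∀ z ∈ D, Tendsto (fun j => f^[j] z) atTop (𝓝 p)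

/-- FUL: limits of full rank.  Proof: let `l` be an ultrafilter finer than `atTop`, `m j = k (j+1) - k j`.
By IT1 let `h` be the limit of `f^[m j]` and `P` the limit of `f^[m j - 1]` along `l`, both holomorphic
on `D` with values in the closure.  `h (g z) = g z` for `z ∈ D`: `f^[m j] (f^[k j] z) → g z`, and
the convergence to `h` is locally uniform near `g z ∈ D`.  Near `z₁` the map `g` is open
(inverse function theorem), so `h = id` on a nonempty open subset of `D`, so on `D` (IDN).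
`P (f z) = h z = z`.  `f` is onto (SRJ), so `P` maps `D` to `D` and `f (P w) = w`.
Needs LIM IDN IT1 SRJ of board PHS. -/
def FULStmt : Prop :=
  ∀ (n : ℕ) (D : Set (Cn n)) (f g : Cn n → Cn n) (k : ℕ → ℕ) (z₁ : Cn n), IsOpen D →
    IsConnected D → Bornology.IsBounded D → ProperSelf D f → StrictMono k →
    (∀ z ∈ D, Tendsto (fun j => f^[k j] z) atTop (𝓝 (g z))) → MapsTo g D D → z₁ ∈ D →
    jac g z₁ ≠ 0 →
    ∃ P : Cn n → Cn n, MapsTo P D D ∧ DifferentiableOn ℂ P D ∧ (∀ z ∈ D, P (f z) = z) ∧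
      ∀ z ∈ D, f (P z) = z

/-- TWO: the theorem.  Proof: (2) from ATR and ASM with `g = p` constant; (3): if the rank of `g` is two
at some point FUL, otherwise ASM (a linear map of `ℂ²` with determinant zero has rank at most one).
Needs ASM ATR FUL. -/
def TWOStmt : Prop :=
  (∀ (n : ℕ) (D U : Set (Cn n)) (f : Cn n → Cn n) (p : Cn n), IsOpen D → IsConnected D →
    Bornology.IsBounded D → ProperSelf D f → IsOpen U → U ⊆ D → U.Nonempty → p ∈ D →
    (∀ z ∈ U, Tendsto (fun j => f^[j] z) atTop (𝓝 p)) → Psc D) ∧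
  ∀ (D : Set (Cn 2)) (f g : Cn 2 → Cn 2) (k : ℕ → ℕ), IsOpen D → IsConnected D →
    Bornology.IsBounded D → ProperSelf D f → StrictMono k →
    (∀ z ∈ D, Tendsto (fun j => f^[k j] z) atTop (𝓝 (g z))) → MapsTo g D D → ¬ Psc D →
    ∃ P : Cn 2 → Cn 2, MapsTo P D D ∧ DifferentiableOn ℂ P D ∧ (∀ z ∈ D, P (f z) = z) ∧
      ∀ z ∈ D, f (P z) = z

end Pool.LPC
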